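import Mathlib

/-! [H43 WH Shift] shifting half a vertical line -/

set_option autoImplicit false

namespace Pool.Agent.H43.WH

open MeasureTheory Set Complex

theorem pow_int {ε T H c : ℝ} (hε : 0 < ε) (hT : 1 ≤ T) (hTH : T ≤ H) (hc : 0 ≤ c) :
    ∫ y in T..H, c * y ^ (-1 - ε) ≤ c / ε := by
  have hT0 : 0 < T := by linarith
  have hH0 : 0 < H := by linarith
  rw [intervalIntegral.integral_const_mul, integral_rpow (Or.inr ⟨by linarith, by
    rw [uIcc_of_le hTH]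
    intro h
    linarith [h.1]⟩)]
  rw [show -1 - ε + 1 = -ε by ring, div_neg, ← neg_div, neg_sub, ← mul_div_assoc]
  refine div_le_div_of_nonneg_right ?_ hε.le
  have h1 : T ^ (-ε) ≤ 1 := Real.rpow_le_one_of_one_le_of_nonpos hT (by linarith)
  have h2 : 0 < H ^ (-ε) := Real.rpow_pos_of_pos hH0 _
  calc c * (T ^ (-ε) - H ^ (-ε)) ≤ c * 1 := mul_le_mul_of_nonneg_left (by linarith) hc
    _ = c := mul_one c

theorem side (Ψ : ℂ → ℂ) (hd : ∀ s : ℂ, s.im ≠ 0 → DifferentiableAt ℂ Ψ s) (A T H σ ε b1 b2 c : ℝ)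
    (hA : 0 < A) (hT : 1 ≤ T) (hTH : T ≤ H) (hσ : σ = 1 ∨ σ = -1) (hε : 0 < ε) (hc : 0 ≤ c)
    (h1 : ∀ x : ℝ, -A ≤ x → x ≤ 2 → ‖Ψ (x + (σ * T : ℝ) * I)‖ ≤ b1)
    (h2 : ∀ x : ℝ, -A ≤ x → x ≤ 2 → ‖Ψ (x + (σ * H : ℝ) * I)‖ ≤ b2)
    (h3 : ∀ y : ℝ, T ≤ y → ‖Ψ (-A + (σ * y : ℝ) * I)‖ ≤ c * y ^ (-1 - ε)) :
    ‖∫ y in (σ * T)..(σ * H), Ψ (2 + y * I)‖ ≤ (A + 2) * (b1 + b2) + c / ε := by
  have hrect := Complex.integral_boundary_rect_eq_zero_of_differentiableOn Ψ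
    (⟨-A, σ * T⟩ : ℂ) (⟨2, σ * H⟩ : ℂ) (by
      intro s hs
      refine (hd s ?_).differentiableWithinAt
      intro h0
      have h5 := hs.2
      simp only [mem_preimage] at h5
      rw [h0] at h5
      rcases hσ with rfl | rfl
      · rw [one_mul, one_mul, uIcc_of_le hTH] at h5
        linarith [h5.1]
      · rw [uIcc_of_ge (by linarith)] at h5
        linarith [h5.2])
  simp only at hrect
  set J1 := ∫ x in (-A)..2, Ψ (x + (σ * T : ℝ) * I) with hJ1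
  set J2 := ∫ x in (-A)..2, Ψ (x + (σ * H : ℝ) * I) with hJ2
  set J3 := ∫ y in (σ * T)..(σ * H), Ψ (((2 : ℝ) : ℂ) + y * I) with hJ3
  set J4 := ∫ y in (σ * T)..(σ * H), Ψ (((-A : ℝ) : ℂ) + y * I) with hJ4
  have hn1 : ‖J1‖ ≤ b1 * |2 - -A| := by
    refine intervalIntegral.norm_integral_le_of_norm_le_const fun x hx => ?_
    rw [uIoc_of_le (by linarith)] at hx
    exact h1 x hx.1.le hx.2
  have hn2 : ‖J2‖ ≤ b2 * |2 - -A| := by
    refine intervalIntegral.norm_integral_le_of_norm_le_const fun x hx => ?_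
    rw [uIoc_of_le (by linarith)] at hx
    exact h2 x hx.1.le hx.2
  have hab : |2 - -A| = A + 2 := by
    rw [abs_of_pos (by linarith)]
    ring
  rw [hab] at hn1 hn2
  have hn4 : ‖J4‖ ≤ c / ε := by
    have e1 : J4 = σ • ∫ y in T..H, Ψ (((-A : ℝ) : ℂ) + ((σ * y : ℝ) : ℂ) * I) := by
      rw [hJ4, ← intervalIntegral.smul_integral_comp_mul_left
        (fun y : ℝ => Ψ (((-A : ℝ) : ℂ) + y * I)) σ]
    have e2 : |σ| = 1 := by rcases hσ with rfl | rfl <;> simp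
    rw [e1, norm_smul, Real.norm_eq_abs, e2, one_mul]
    have hint : IntervalIntegrable (fun y : ℝ => c * y ^ (-1 - ε)) volume T H := by
      refine ContinuousOn.intervalIntegrable ?_
      rw [uIcc_of_le hTH]
      intro y hy
      refine (continuousAt_const.mul (Real.continuousAt_rpow_const _ _ (Or.inl ?_))).continuousWithinAt
      linarith [hy.1]
    refine (intervalIntegral.norm_integral_le_of_norm_le hTH ?_ hint).trans (pow_int hε hT hTH hc)
    refine Filter.Eventually.of_forall fun y hy => ?_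
    have := h3 y hy.1.le
    simpa using this
  have e3 : I • J3 = J2 - J1 + I • J4 := by
    linear_combination hrect
  have e4 : ‖J3‖ = ‖J2 - J1 + I • J4‖ := by
    rw [← e3, norm_smul, norm_I, one_mul]
  have e5 : ∫ y in (σ * T)..(σ * H), Ψ (2 + y * I) = J3 := by
    rw [hJ3]
    simp
  rw [e5, e4]
  calc ‖J2 - J1 + I • J4‖ ≤ ‖J2 - J1‖ + ‖I • J4‖ := norm_add_le _ _
    _ ≤ (‖J2‖ + ‖J1‖) + ‖J4‖ := by
        rw [norm_smul, norm_I, one_mul]
        linarith [norm_sub_le J2 J1]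
    _ ≤ (A + 2) * (b1 + b2) + c / ε := by nlinarith

end Pool.Agent.H43.WH
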