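import Pool.Agent.H43.WH.Ker2
import Pool.Agent.H43.WH.Shift

/-! [H43 WH Kb] the two bounds of the kernel -/

set_option autoImplicit false

namespace Pool.Agent.H43.WH

open MeasureTheory Set Complex

theorem kn_hi {φ : ℝ → ℝ} (h : Bp φ) (R : ℕ) : ∃ B : ℝ, 0 < B ∧ ∀ n : ℕ, 1 ≤ n → ∀ s : ℂ,
    1 ≤ |s.im| → ‖kn φ n s‖ ≤
      B * (2 ^ |s.re + R - 1| * (n : ℝ) ^ (s.re + R - 1)) * |s.im| ^ (-(R : ℝ)) := by
  obtain ⟨B, hB0, hB⟩ := bp_bound (bp_iter h R)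
  refine ⟨B, hB0, fun n hn s hs => ?_⟩
  have h1 := kn_high h hn R s
  have h2 := kn_bound hB hB0.le hn (s + R)
  rw [h1, norm_mul] at h2
  have h3 : (s + (R : ℂ)).re - 1 = s.re + R - 1 := by simp
  rw [h3] at h2
  have h4 : |s.im| ^ R ≤ ‖∏ j ∈ Finset.range R, -(s + (j : ℂ))‖ := by
    rw [norm_prod]
    have h5 : |s.im| ^ R = ∏ _j ∈ Finset.range R, |s.im| := by
      rw [Finset.prod_const, Finset.card_range]
    rw [h5]
    refine Finset.prod_le_prod (fun _ _ => abs_nonneg _) fun j _ => ?_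
    rw [norm_neg]
    have h6 := abs_im_le_norm (s + (j : ℂ))
    simpa using h6
  have h5 : 0 < |s.im| := by linarith
  have h6 : |s.im| ^ R * ‖kn φ n s‖ ≤ B * (2 ^ |s.re + R - 1| * (n : ℝ) ^ (s.re + R - 1)) :=
    (mul_le_mul_of_nonneg_right h4 (norm_nonneg _)).trans h2
  rw [Real.rpow_neg h5.le, Real.rpow_natCast, ← div_eq_mul_inv, le_div_iff₀ (by positivity)]
  linarith

theorem kn_lo {ψ : ℝ → ℝ} (h : Bp ψ) (M : ℕ) : ∃ B : ℝ, 0 < B ∧ ∀ n : ℕ, 1 ≤ n → ∀ s : ℂ,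
    ‖kn (iteratedDeriv M ψ) n s‖ ≤
      (‖s‖ + 1 + M) ^ M * (B * (2 ^ |s.re - M - 1| * (n : ℝ) ^ (s.re - M - 1))) := by
  obtain ⟨B, hB0, hB⟩ := bp_bound h
  refine ⟨B, hB0, fun n hn s => ?_⟩
  rw [kn_low h hn M s, norm_mul]
  have h2 := kn_bound hB hB0.le hn (s - M)
  have h3 : (s - (M : ℂ)).re - 1 = s.re - M - 1 := by simp
  rw [h3] at h2
  refine mul_le_mul ?_ h2 (norm_nonneg _) (by positivity)
  rw [norm_prod]
  have h5 : (‖s‖ + 1 + M) ^ M = ∏ _j ∈ Finset.range M, (‖s‖ + 1 + M) := by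
    rw [Finset.prod_const, Finset.card_range]
  rw [h5]
  refine Finset.prod_le_prod (fun _ _ => norm_nonneg _) fun j hj => ?_
  rw [Finset.mem_range] at hj
  rw [norm_neg]
  have h6 : (j : ℝ) ≤ M := by exact_mod_cast hj.le
  calc ‖s - 1 - (j : ℂ)‖ ≤ ‖s - 1‖ + ‖(j : ℂ)‖ := norm_sub_le _ _
    _ ≤ (‖s‖ + ‖(1 : ℂ)‖) + ‖(j : ℂ)‖ := by linarith [norm_sub_le s 1]
    _ ≤ ‖s‖ + 1 + M := by
        rw [norm_one, norm_natCast]
        linarith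

end Pool.Agent.H43.WH
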