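import Pool.Agent.H43.SI.Mvp
import Pool.Agent.H43.SI.Pw
import Pool.Agent.H43.SI.Me1

/-!
# [H43 WH T2] The type II estimate for primes in all short intervals

If the three Moebius factors of a box are all `>= X^κ` then
`∫_{(log X)^A0 <= |t| <= X^κ} ‖bp χ e t‖ dt <= (log X)^(-A)`: `pw` for factor `0`, `mvp` for
factor `1` and for the product of the factors `2, 3, 4, 5`.
-/

set_option autoImplicit false

namespace Pool.Agent.H43.WH

open Finset MeasureTheory Pool.Agent.H43.SI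

theorem t2 (q : ℕ) [NeZero q] (κ A : ℝ) (hκ : 0 < κ) (hκ1 : κ ≤ 1) (hA : 0 < A) :
    ∃ A0 X0 : ℝ, 0 < A0 ∧ 10 ≤ X0 ∧ ∀ (χ : DirichletCharacter ℂ q) (X : ℝ), X0 ≤ X →
    ∀ (e : Fin 6 → ℕ), (∀ i : Fin 6, (i : ℕ) < 3 → X ^ κ ≤ 2 ^ (e i)) →
    (∀ i : Fin 6, (2 : ℝ) ^ (e i) ≤ X) →
    ∫ t in {t : ℝ | (Real.log X) ^ A0 ≤ |t| ∧ |t| ≤ X ^ κ}, ‖bp χ e t‖ ≤
      (Real.log X) ^ (-A) := by
  obtain ⟨C, hC, B, hmvp⟩ := mvp
  obtain ⟨X1, hX1, hpw⟩ := pw q (A + B + 1) (by positivity)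
  refine ⟨A + B + 1 + 3, max X1 (Real.exp (max (max 10 (4 * C * 10 ^ B)) (κ⁻¹ ^ (50 : ℕ)))),
    by positivity, hX1.trans (le_max_left _ _), ?_⟩
  intro χ X hX e he1 he2
  have hXX1 : X1 ≤ X := (le_max_left _ _).trans hX
  have hX0 : 0 < X := by linarith
  have hX1' : 1 ≤ X := by linarith
  set L := Real.log X with hL
  have hLM : max (max 10 (4 * C * 10 ^ B)) (κ⁻¹ ^ (50 : ℕ)) ≤ L :=
    (Real.le_log_iff_exp_le hX0).2 ((le_max_right _ _).trans hX)
  have hL10 : 10 ≤ L := ((le_max_left _ _).trans (le_max_left _ _)).trans hLM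
  have hLC : 4 * C * 10 ^ B ≤ L := ((le_max_right _ _).trans (le_max_left _ _)).trans hLM
  have hLκ : κ⁻¹ ^ (50 : ℕ) ≤ L := (le_max_right _ _).trans hLM
  have hL0 : 0 < L := by linarith
  have hL1 : 1 ≤ L := by linarith
  set T : ℝ := X ^ κ with hT
  have hT1 : 1 ≤ T := Real.one_le_rpow hX1' hκ.le
  have hTX : T ≤ X := by
    have := Real.rpow_le_rpow_of_exponent_le hX1' hκ1
    rwa [Real.rpow_one] at this
  -- the length of the Moebius factors
  have hlen : Real.exp (L ^ (0.98 : ℝ)) ≤ T := by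
    have h1 : T = Real.exp (κ * L) := by
      rw [hT, Real.rpow_def_of_pos hX0, mul_comm]
    rw [h1]
    apply Real.exp_le_exp.2
    have h2 : κ⁻¹ ≤ L ^ (0.02 : ℝ) := by
      have h3 : κ⁻¹ = (κ⁻¹ ^ (50 : ℕ)) ^ (0.02 : ℝ) := by
        rw [← Real.rpow_natCast, ← Real.rpow_mul (by positivity)]
        norm_num
      rw [h3]
      exact Real.rpow_le_rpow (by positivity) hLκ (by norm_num)
    have h4 : L = L ^ (0.98 : ℝ) * L ^ (0.02 : ℝ) := by
      rw [← Real.rpow_add hL0]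
      norm_num
    have h5 : 0 ≤ L ^ (0.98 : ℝ) := by positivity
    calc L ^ (0.98 : ℝ) = κ * (L ^ (0.98 : ℝ) * κ⁻¹) := by field_simp
      _ ≤ κ * (L ^ (0.98 : ℝ) * L ^ (0.02 : ℝ)) := by gcongr
      _ = κ * L := by rw [← h4]
  -- the two groups
  set g1 : ℝ → ℝ := fun t => ‖∏ j ∈ ({1} : Finset (Fin 6)), pol (cf χ j) (e j) t‖ ^ 2 with hg1
  set g2 : ℝ → ℝ := fun t => ‖∏ j ∈ ({2, 3, 4, 5} : Finset (Fin 6)), pol (cf χ j) (e j) t‖ ^ 2
    with hg2
  have hg1c : Continuous g1 := by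
    refine (Continuous.norm ?_).pow 2
    exact continuous_finsetProd _ fun j _ => me1_cont _ _
  have hg2c : Continuous g2 := by
    refine (Continuous.norm ?_).pow 2
    exact continuous_finsetProd _ fun j _ => me1_cont _ _
  have hbc : Continuous (fun t => ‖bp χ e t‖) := by
    refine Continuous.norm ?_
    unfold bp
    exact continuous_finsetProd _ fun j _ => me1_cont _ _
  set R : Set ℝ := {t : ℝ | L ^ (A + B + 1 + 3) ≤ |t| ∧ |t| ≤ T} with hR
  have hRm : MeasurableSet R := by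
    have h1 : IsClosed R :=
      (isClosed_le continuous_const continuous_abs).inter (isClosed_le continuous_abs continuous_const)
    exact h1.measurableSet
  have hRsub : R ⊆ Set.Icc (-T) T := fun t ht => abs_le.1 ht.2
  have hgi : IntegrableOn (fun t => g1 t + g2 t) (Set.Icc (-T) T) :=
    (hg1c.add hg2c).integrableOn_Icc
  have hbi : IntegrableOn (fun t => ‖bp χ e t‖) (Set.Icc (-T) T) := hbc.integrableOn_Icc
  set c : ℝ := L ^ (-(A + B + 1)) with hc
  have hc0 : 0 ≤ c := by positivity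
  have hpt : ∀ t ∈ R, ‖bp χ e t‖ ≤ c * (g1 t + g2 t) := by
    intro t ht
    have h1 := hpw χ X hXX1 0 (e 0) t (hlen.trans (he1 0 (by decide))) (he2 0) ht.1 (ht.2.trans hTX)
    have h2 : bp χ e t = pol (cf χ 0) (e 0) t *
        ((∏ j ∈ ({1} : Finset (Fin 6)), pol (cf χ j) (e j) t) *
          ∏ j ∈ ({2, 3, 4, 5} : Finset (Fin 6)), pol (cf χ j) (e j) t) := by
      unfold bp
      rw [Fin.prod_univ_six, Finset.prod_singleton]
      have h3 : ∏ j ∈ ({2, 3, 4, 5} : Finset (Fin 6)), pol (cf χ j) (e j) t =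
          pol (cf χ 2) (e 2) t * (pol (cf χ 3) (e 3) t * (pol (cf χ 4) (e 4) t *
            pol (cf χ 5) (e 5) t)) := by
        rw [Finset.prod_insert (by decide), Finset.prod_insert (by decide),
          Finset.prod_insert (by decide), Finset.prod_singleton]
      rw [h3]
      ring
    rw [h2, norm_mul, norm_mul]
    refine mul_le_mul h1 ?_ (by positivity) hc0
    have h4 := two_mul_le_add_sq ‖∏ j ∈ ({1} : Finset (Fin 6)), pol (cf χ j) (e j) t‖
      ‖∏ j ∈ ({2, 3, 4, 5} : Finset (Fin 6)), pol (cf χ j) (e j) t‖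
    have h5 : 0 ≤ ‖∏ j ∈ ({1} : Finset (Fin 6)), pol (cf χ j) (e j) t‖ *
      ‖∏ j ∈ ({2, 3, 4, 5} : Finset (Fin 6)), pol (cf χ j) (e j) t‖ := by positivity
    simp only [hg1, hg2]
    linarith
  have h1 : ∫ t in R, ‖bp χ e t‖ ≤ ∫ t in R, c * (g1 t + g2 t) :=
    setIntegral_mono_on (hbi.mono_set hRsub) ((hgi.mono_set hRsub).const_mul c) hRm hpt
  have h2 : ∫ t in R, c * (g1 t + g2 t) = c * ∫ t in R, (g1 t + g2 t) := integral_const_mul c _
  have h3 : ∫ t in R, (g1 t + g2 t) ≤ ∫ t in Set.Icc (-T) T, (g1 t + g2 t) :=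
    setIntegral_mono_set hgi (Filter.Eventually.of_forall fun t => by
      simp only [Pi.zero_apply, hg1, hg2]; positivity)
      (Filter.Eventually.of_forall hRsub)
  have h4 : ∫ t in Set.Icc (-T) T, (g1 t + g2 t) =
      (∫ t in (-T)..T, g1 t) + ∫ t in (-T)..T, g2 t := by
    rw [integral_Icc_eq_integral_Ioc, ← intervalIntegral.integral_of_le (by linarith)]
    exact intervalIntegral.integral_add (hg1c.intervalIntegrable _ _) (hg2c.intervalIntegrable _ _)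
  -- mean values
  have hE : ((∑ i, e i : ℕ) : ℝ) ≤ 9 * L := by
    have h5 : ∀ i : Fin 6, (e i : ℝ) ≤ 1.5 * L := by
      intro i
      have h6 := Real.log_le_log (by positivity) (he2 i)
      rw [Real.log_pow] at h6
      have h7 : (0.69 : ℝ) < Real.log 2 := by
        have := Real.log_two_gt_d9
        linarith
      have h8 : (0 : ℝ) ≤ e i := Nat.cast_nonneg _
      nlinarith
    push_cast
    calc ∑ i : Fin 6, (e i : ℝ) ≤ ∑ _i : Fin 6, 1.5 * L := Finset.sum_le_sum fun i _ => h5 i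
      _ = 9 * L := by
        rw [Finset.sum_const, Finset.card_univ, Fintype.card_fin, nsmul_eq_mul]
        push_cast
        ring
  have hmv : ∀ s : Finset (Fin 6), (∃ i ∈ s, (i : ℕ) < 3) →
      ∫ t in (-T)..T, ‖∏ j ∈ s, pol (cf χ j) (e j) t‖ ^ 2 ≤ C * (10 * L) ^ B * 2 := by
    intro s hs
    obtain ⟨i, his, hi3⟩ := hs
    refine (hmvp q χ e s T hT1).trans ?_
    have hle : (∑ j ∈ s, e j) ≤ ∑ j, e j := Finset.sum_le_sum_of_subset (Finset.subset_univ s)
    have hleR : ((∑ j ∈ s, e j : ℕ) : ℝ) ≤ 9 * L := (by exact_mod_cast hle : ((∑ j ∈ s, e j : ℕ) : ℝ) ≤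
      ((∑ j, e j : ℕ) : ℝ)).trans hE
    have h6 : T / 2 ^ (∑ j ∈ s, e j) ≤ 1 := by
      rw [div_le_one (by positivity)]
      refine (he1 i hi3).trans ?_
      exact pow_le_pow_right₀ (by norm_num) (Finset.single_le_sum (f := e) (fun _ _ => Nat.zero_le _) his)
    have h16 : (1 + ((∑ j ∈ s, e j : ℕ) : ℝ)) ^ B ≤ (10 * L) ^ B :=
      pow_le_pow_left₀ (by positivity) (by linarith) B
    exact mul_le_mul (mul_le_mul_of_nonneg_left h16 hC.le) (by linarith) (by positivity)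
      (by positivity)
  have k1 := hmv {1} ⟨1, by decide, by decide⟩
  have k2 := hmv {2, 3, 4, 5} ⟨2, by decide, by decide⟩
  have hfin : c * (C * (10 * L) ^ B * 2 + C * (10 * L) ^ B * 2) ≤ L ^ (-A) := by
    have e1 : c = L ^ (-A) * (L ^ (-(B : ℝ)) * L ^ (-1 : ℝ)) := by
      rw [hc, ← Real.rpow_add hL0, ← Real.rpow_add hL0]
      congr 1
      ring
    have e2 : (10 * L) ^ B = 10 ^ B * L ^ (B : ℝ) := by
      rw [mul_pow, Real.rpow_natCast]
    have e3 : L ^ (-(B : ℝ)) * L ^ (B : ℝ) = 1 := by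
      rw [← Real.rpow_add hL0]
      simp
    have e6 : L ^ (-1 : ℝ) * L = 1 := by
      rw [Real.rpow_neg_one, inv_mul_cancel₀ hL0.ne']
    have hLA : 0 < L ^ (-A) := by positivity
    have hLi : 0 < L ^ (-1 : ℝ) := by positivity
    rw [e1, e2]
    have e7 : L ^ (-A) * (L ^ (-(B : ℝ)) * L ^ (-1 : ℝ)) *
        (C * (10 ^ B * L ^ (B : ℝ)) * 2 + C * (10 ^ B * L ^ (B : ℝ)) * 2) =
        L ^ (-A) * ((L ^ (-1 : ℝ) * (4 * C * 10 ^ B)) * (L ^ (-(B : ℝ)) * L ^ (B : ℝ))) := by ring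
    rw [e7, e3, mul_one]
    have e8 : L ^ (-1 : ℝ) * (4 * C * 10 ^ B) ≤ 1 := by
      exact (mul_le_mul_of_nonneg_left hLC hLi.le).trans e6.le
    calc L ^ (-A) * (L ^ (-1 : ℝ) * (4 * C * 10 ^ B))
        ≤ L ^ (-A) * 1 := mul_le_mul_of_nonneg_left e8 hLA.le
      _ = L ^ (-A) := by ring
  calc ∫ t in R, ‖bp χ e t‖ ≤ c * ∫ t in R, (g1 t + g2 t) := h1.trans h2.le
    _ ≤ c * (C * (10 * L) ^ B * 2 + C * (10 * L) ^ B * 2) := by
        refine mul_le_mul_of_nonneg_left (h3.trans ?_) hc0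
        rw [h4]
        exact add_le_add k1 k2
    _ ≤ L ^ (-A) := hfin

end Pool.Agent.H43.WH
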