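import Mathlib

/-!
# [H43 WH Ker] compactly supported kernels at distance 1 from an integer: Mellin transforms

`kn φ n s = ∫ φ(u) (n+u)^(s-1) du`, `φ` smooth with support in `[-1/4,1/4]`.
-/

set_option autoImplicit false

namespace Pool.Agent.H43.WH

open MeasureTheory Set Complex

/-- admissible kernels -/
def Bp (φ : ℝ → ℝ) : Prop := ContDiff ℝ (⊤ : ℕ∞) φ ∧ ∀ u : ℝ, 1 / 4 < |u| → φ u = 0

/-- the Mellin transform of `φ (x - n)` -/
noncomputable def kn (φ : ℝ → ℝ) (n : ℕ) (s : ℂ) : ℂ :=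
  ∫ u in (-(1 / 2) : ℝ)..(1 / 2), (φ u : ℂ) * ((n + u : ℝ) : ℂ) ^ (s - 1)

theorem bp_deriv {φ : ℝ → ℝ} (h : Bp φ) : Bp (deriv φ) := by
  refine ⟨?_, ?_⟩
  · have h1 := h.1
    exact (contDiff_infty_iff_deriv.1 h1).2
  · intro u hu
    have h1 : φ =ᶠ[nhds u] fun _ => 0 := by
      have h2 : {v : ℝ | 1 / 4 < |v|} ∈ nhds u :=
        (isOpen_lt continuous_const continuous_abs).mem_nhds hu
      filter_upwards [h2] with v hv
      exact h.2 v hv
    rw [h1.deriv_eq]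
    simp

theorem bp_iter {φ : ℝ → ℝ} (h : Bp φ) (j : ℕ) : Bp (iteratedDeriv j φ) := by
  induction j with
  | zero => simpa using h
  | succ j ih =>
    rw [iteratedDeriv_succ]
    exact bp_deriv ih

theorem bp_bound {φ : ℝ → ℝ} (h : Bp φ) : ∃ B : ℝ, 0 < B ∧ ∀ u, |φ u| ≤ B := by
  have hc : Continuous φ := h.1.continuous
  obtain ⟨B, hB⟩ := (isCompact_Icc (a := (-1 : ℝ)) (b := 1)).exists_bound_of_continuousOn
    hc.continuousOn
  refine ⟨max B 1, by positivity, fun u => ?_⟩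
  by_cases hu : u ∈ Icc (-1 : ℝ) 1
  · exact (hB u hu).trans (le_max_left _ _)
  · rw [h.2 u, abs_zero]
    · positivity
    · rw [mem_Icc, ← abs_le] at hu
      push Not at hu
      linarith

lemma nu_pos {n : ℕ} (hn : 1 ≤ n) {u : ℝ} (hu : u ∈ Icc (-(1 / 2) : ℝ) (1 / 2)) :
    (n : ℝ) / 2 ≤ n + u ∧ (n : ℝ) + u ≤ 2 * n ∧ 0 < (n : ℝ) + u := by
  have h1 : (1 : ℝ) ≤ n := by exact_mod_cast hn
  obtain ⟨h2, h3⟩ := hu
  refine ⟨by linarith, by linarith, by linarith⟩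

/-- integration by parts -/
theorem kn_parts {φ : ℝ → ℝ} (h : Bp φ) {n : ℕ} (hn : 1 ≤ n) (s : ℂ) :
    kn (deriv φ) n (s + 1) = -s * kn φ n s := by
  have huu : uIcc (-(1 / 2) : ℝ) (1 / 2) = Icc (-(1 / 2)) (1 / 2) := uIcc_of_le (by norm_num)
  have hd : Differentiable ℝ φ := h.1.differentiable (by simp)
  have hdc : Continuous (deriv φ) := (bp_deriv h).1.continuous
  have h1 : ∀ u ∈ uIcc (-(1 / 2) : ℝ) (1 / 2),
      HasDerivAt (fun u : ℝ => (φ u : ℂ)) ((deriv φ u : ℝ) : ℂ) u := by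
    intro u _
    exact (hd u).hasDerivAt.ofReal_comp
  have h2 : ∀ u ∈ uIcc (-(1 / 2) : ℝ) (1 / 2),
      HasDerivAt (fun u : ℝ => ((n + u : ℝ) : ℂ) ^ s) (s * ((n + u : ℝ) : ℂ) ^ (s - 1)) u := by
    intro u hu
    rw [huu] at hu
    have h3 := (nu_pos hn hu).2.2
    have h4 : HasDerivAt (fun z : ℂ => (n : ℂ) + z) 1 (u : ℂ) := (hasDerivAt_id _).const_add _
    have h5 : HasDerivAt (fun z : ℂ => ((n : ℂ) + z) ^ s) (s * ((n : ℂ) + (u : ℂ)) ^ (s - 1) * 1)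
        (u : ℂ) := h4.cpow_const (Or.inl (by simpa using h3))
    have h6 := h5.comp_ofReal
    simp only [mul_one] at h6
    simpa only [ofReal_add, ofReal_natCast] using h6
  have hcp : ∀ w : ℂ, ContinuousOn (fun u : ℝ => ((n + u : ℝ) : ℂ) ^ w)
      (uIcc (-(1 / 2) : ℝ) (1 / 2)) := by
    intro w u hu
    rw [huu] at hu
    have h3 := (nu_pos hn hu).2.2
    refine ContinuousAt.continuousWithinAt ?_
    have h4 : ContinuousAt (fun u : ℝ => ((n + u : ℝ) : ℂ)) u :=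
      (continuous_ofReal.comp (continuous_const.add continuous_id)).continuousAt
    exact h4.cpow continuousAt_const (Or.inl (by simpa using h3))
  have h6 := intervalIntegral.integral_mul_deriv_eq_deriv_mul h1 h2
    ((continuous_ofReal.comp hdc).intervalIntegrable _ _)
    ((continuousOn_const.mul (hcp (s - 1))).intervalIntegrable)
  have h7 : φ (1 / 2) = 0 := h.2 _ (by rw [abs_of_pos (by norm_num)]; norm_num)
  have h8 : φ (-(1 / 2)) = 0 := h.2 _ (by rw [abs_neg, abs_of_pos (by norm_num)]; norm_num)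
  rw [h7, h8] at h6
  simp only [ofReal_zero, zero_mul, sub_self, zero_sub] at h6
  unfold kn
  rw [add_sub_cancel_right]
  have h9 : ∫ u in (-(1 / 2) : ℝ)..(1 / 2), (φ u : ℂ) * (s * ((n + u : ℝ) : ℂ) ^ (s - 1)) =
      s * ∫ u in (-(1 / 2) : ℝ)..(1 / 2), (φ u : ℂ) * ((n + u : ℝ) : ℂ) ^ (s - 1) := by
    rw [← intervalIntegral.integral_const_mul]
    congr 1
    funext u
    ring
  rw [h9] at h6
  rw [neg_mul, h6, neg_neg]

theorem kn_low {ψ : ℝ → ℝ} (h : Bp ψ) {n : ℕ} (hn : 1 ≤ n) (M : ℕ) : ∀ s : ℂ,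
    kn (iteratedDeriv M ψ) n s = (∏ j ∈ Finset.range M, -(s - 1 - j)) * kn ψ n (s - M) := by
  induction M with
  | zero => intro s; simp
  | succ M ih =>
    intro s
    have h1 := kn_parts (bp_iter h M) hn (s - 1)
    rw [sub_add_cancel] at h1
    rw [iteratedDeriv_succ, h1, ih (s - 1), Finset.prod_range_succ']
    push_cast
    have h2 : ∏ j ∈ Finset.range M, -(s - 1 - 1 - (j : ℂ)) =
        ∏ j ∈ Finset.range M, -(s - 1 - ((j : ℂ) + 1)) := by
      refine Finset.prod_congr rfl fun j _ => ?_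
      ring
    rw [h2, show s - 1 - (M : ℂ) = s - (M + 1) by ring]
    ring

theorem kn_high {φ : ℝ → ℝ} (h : Bp φ) {n : ℕ} (hn : 1 ≤ n) (R : ℕ) : ∀ s : ℂ,
    kn (iteratedDeriv R φ) n (s + R) = (∏ j ∈ Finset.range R, -(s + j)) * kn φ n s := by
  induction R with
  | zero => intro s; simp
  | succ R ih =>
    intro s
    have h1 := kn_parts (bp_iter h R) hn (s + R)
    rw [iteratedDeriv_succ, Finset.prod_range_succ]
    push_cast
    rw [show s + ((R : ℂ) + 1) = s + R + 1 by ring, h1, ih s]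
    ring

theorem kn_bound {φ : ℝ → ℝ} {B : ℝ} (hB : ∀ u, |φ u| ≤ B) (hB0 : 0 ≤ B) {n : ℕ} (hn : 1 ≤ n) (s : ℂ) :
    ‖kn φ n s‖ ≤ B * (2 ^ |s.re - 1| * (n : ℝ) ^ (s.re - 1)) := by
  have hn0 : (0 : ℝ) < n := by exact_mod_cast hn
  unfold kn
  have h1 : ∀ u ∈ uIoc (-(1 / 2) : ℝ) (1 / 2), ‖(φ u : ℂ) * ((n + u : ℝ) : ℂ) ^ (s - 1)‖ ≤
      B * (2 ^ |s.re - 1| * (n : ℝ) ^ (s.re - 1)) := by
    intro u hu
    rw [uIoc_of_le (by norm_num)] at hu
    obtain ⟨h2, h3, h4⟩ := nu_pos hn (Ioc_subset_Icc_self hu)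
    rw [norm_mul, norm_real, Real.norm_eq_abs, norm_cpow_eq_rpow_re_of_pos h4]
    refine mul_le_mul (hB u) ?_ (by positivity) hB0
    rw [sub_re, one_re]
    set r := s.re - 1 with hr
    rcases le_or_gt 0 r with h5 | h5
    · rw [abs_of_nonneg h5, ← Real.mul_rpow (by norm_num) hn0.le]
      exact Real.rpow_le_rpow h4.le h3 h5
    · rw [abs_of_neg h5]
      have h6 : (n + u : ℝ) ^ r ≤ ((n : ℝ) / 2) ^ r :=
        Real.rpow_le_rpow_of_nonpos (by positivity) h2 h5.le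
      refine h6.trans (le_of_eq ?_)
      rw [Real.div_rpow hn0.le (by norm_num), div_eq_mul_inv, ← Real.rpow_neg (by norm_num), mul_comm]
  have h2 := intervalIntegral.norm_integral_le_of_norm_le_const h1
  refine h2.trans (le_of_eq ?_)
  rw [show |(1 / 2 : ℝ) - -(1 / 2)| = 1 by norm_num, mul_one]

end Pool.Agent.H43.WH
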