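import Pool.Agent.H43.WH.Ker

/-!
# [H43 WH Ker2] Mellin inversion: a coefficient of a Dirichlet series as an integral
-/

set_option autoImplicit false

namespace Pool.Agent.H43.WH

open MeasureTheory Set Complex

theorem exists_bp (M : ℕ) : ∃ ψ : ℝ → ℝ, Bp ψ ∧ iteratedDeriv M ψ 0 = 1 := by
  let f : ContDiffBump (0 : ℝ) := ⟨1 / 8, 1 / 4, by norm_num, by norm_num⟩
  refine ⟨fun u => Real.exp u * f u, ⟨?_, ?_⟩, ?_⟩
  · exact Real.contDiff_exp.mul f.contDiff
  · intro u hu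
    have h1 : f u = 0 := f.zero_of_le_dist (by
      rw [Real.dist_eq, sub_zero]
      exact hu.le)
    simp [h1]
  · have h1 : (fun u => Real.exp u * f u) =ᶠ[nhds 0] Real.exp := by
      have h2 : Metric.ball (0 : ℝ) (1 / 8) ∈ nhds (0 : ℝ) := Metric.ball_mem_nhds _ (by norm_num)
      filter_upwards [h2] with u hu
      have h3 : f u = 1 := f.one_of_mem_closedBall (Metric.ball_subset_closedBall hu)
      rw [h3, mul_one]
    rw [h1.iteratedDeriv_eq, iteratedDeriv_eq_iterate, Real.iter_deriv_exp, Real.exp_zero]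

/-- the function whose Mellin transform is `kn φ n` -/
noncomputable def fn (φ : ℝ → ℝ) (n : ℕ) (x : ℝ) : ℂ := (φ (x - n) : ℂ)

theorem fn_cont {φ : ℝ → ℝ} (h : Bp φ) (n : ℕ) : Continuous (fn φ n) :=
  continuous_ofReal.comp (h.1.continuous.comp (continuous_id.sub continuous_const))

theorem mellin_fn {φ : ℝ → ℝ} (h : Bp φ) {n : ℕ} (hn : 1 ≤ n) (s : ℂ) :
    mellin (fn φ n) s = kn φ n s := by
  have hn0 : (1 : ℝ) ≤ n := by exact_mod_cast hn
  unfold mellin kn
  have h1 : ∫ x in Ioi (0 : ℝ), (x : ℂ) ^ (s - 1) • fn φ n x =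
      ∫ x in Ioc ((n : ℝ) - 1 / 2) ((n : ℝ) + 1 / 2), (x : ℂ) ^ (s - 1) • fn φ n x := by
    refine setIntegral_eq_of_subset_of_forall_sdiff_eq_zero measurableSet_Ioi ?_ ?_
    · intro x hx
      rw [mem_Ioi]
      linarith [hx.1]
    · intro x hx
      have h2 : fn φ n x = 0 := by
        unfold fn
        rw [h.2, ofReal_zero]
        by_contra h3
        push Not at h3
        rw [abs_le] at h3
        exact hx.2 ⟨by linarith [h3.1], by linarith [h3.2]⟩
      rw [h2, smul_zero]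
  rw [h1, ← intervalIntegral.integral_of_le (by linarith)]
  have h3 := intervalIntegral.integral_comp_add_right
    (fun x : ℝ => (x : ℂ) ^ (s - 1) • fn φ n x) (a := -(1 / 2)) (b := 1 / 2) (n : ℝ)
  rw [show -(1 / 2) + (n : ℝ) = n - 1 / 2 by ring, show 1 / 2 + (n : ℝ) = n + 1 / 2 by ring] at h3
  rw [← h3]
  congr 1
  funext u
  unfold fn
  rw [smul_eq_mul, show u + (n : ℝ) - n = u by ring, show u + (n : ℝ) = n + u by ring, mul_comm]

theorem fn_conv {φ : ℝ → ℝ} (h : Bp φ) {n : ℕ} (hn : 1 ≤ n) (s : ℂ) :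
    MellinConvergent (fn φ n) s ∧ DifferentiableAt ℂ (mellin (fn φ n)) s := by
  have hn0 : (1 : ℝ) ≤ n := by exact_mod_cast hn
  have h1 : LocallyIntegrableOn (fn φ n) (Ioi 0) :=
    (fn_cont h n).locallyIntegrable.locallyIntegrableOn _
  have h2 : fn φ n =ᶠ[Filter.atTop] fun _ => 0 := by
    filter_upwards [Filter.eventually_gt_atTop ((n : ℝ) + 1)] with x hx
    unfold fn
    rw [h.2, ofReal_zero]
    rw [abs_of_pos (by linarith)]
    linarith
  have h3 : fn φ n =ᶠ[nhdsWithin 0 (Ioi 0)] fun _ => 0 := by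
    have : Iio (1 / 2 : ℝ) ∈ nhdsWithin (0 : ℝ) (Ioi 0) :=
      mem_nhdsWithin_of_mem_nhds (Iio_mem_nhds (by norm_num))
    filter_upwards [this] with x hx
    unfold fn
    rw [mem_Iio] at hx
    rw [h.2, ofReal_zero]
    rw [abs_of_neg (by linarith)]
    linarith
  have h4 := h2.trans_isBigO (Asymptotics.isBigO_zero (fun x : ℝ => x ^ (-(s.re + 1))) Filter.atTop)
  have h5 := h3.trans_isBigO (Asymptotics.isBigO_zero (fun x : ℝ => x ^ (-(s.re - 1)))
    (nhdsWithin 0 (Ioi 0)))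
  exact ⟨mellinConvergent_of_isBigO_rpow h1 h4 (by linarith) h5 (by linarith),
    mellin_differentiableAt_of_isBigO_rpow h1 h4 (by linarith) h5 (by linarith)⟩

theorem kn_diff {φ : ℝ → ℝ} (h : Bp φ) {n : ℕ} (hn : 1 ≤ n) : Differentiable ℂ (kn φ n) := by
  have h1 : kn φ n = mellin (fn φ n) := funext fun s => (mellin_fn h hn s).symm
  rw [h1]
  exact fun s => (fn_conv h hn s).2

theorem kn_int {φ : ℝ → ℝ} (h : Bp φ) {n : ℕ} (hn : 1 ≤ n) :
    Integrable (fun y : ℝ => kn φ n (2 + y * I)) := by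
  obtain ⟨B, hB0, hB⟩ := bp_bound (bp_iter h 2)
  have hc : Continuous (fun y : ℝ => kn φ n (2 + y * I)) :=
    (kn_diff h hn).continuous.comp (by fun_prop)
  have hb : ∀ y : ℝ, ‖kn φ n (2 + y * I)‖ ≤
      (B * (2 ^ |(3 : ℝ)| * (n : ℝ) ^ (3 : ℝ))) * (1 + y ^ 2)⁻¹ := by
    intro y
    have h1 := kn_high h hn 2 (2 + y * I)
    have h2 := kn_bound hB hB0.le hn (2 + y * I + (2 : ℕ))
    rw [h1, norm_mul] at h2
    have h3 : (2 + y * I + ((2 : ℕ) : ℂ)).re - 1 = 3 := by simp; norm_num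
    rw [h3] at h2
    rw [Finset.prod_range_succ, Finset.prod_range_one, norm_mul, norm_neg, norm_neg] at h2
    have h4 : 1 + y ^ 2 ≤ ‖(2 + y * I + ((0 : ℕ) : ℂ))‖ * ‖(2 + y * I + ((1 : ℕ) : ℂ))‖ := by
      have h5 : ‖(2 + y * I + ((0 : ℕ) : ℂ))‖ ^ 2 = 4 + y ^ 2 := by
        rw [← normSq_eq_norm_sq]
        simp [normSq_apply]
        ring
      have h6 : ‖(2 + y * I + ((1 : ℕ) : ℂ))‖ ^ 2 = 9 + y ^ 2 := by
        rw [← normSq_eq_norm_sq]
        simp [normSq_apply]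
        ring
      have h7 : ‖(2 + y * I + ((0 : ℕ) : ℂ))‖ ≤ ‖(2 + y * I + ((1 : ℕ) : ℂ))‖ := by
        apply le_of_sq_le_sq _ (norm_nonneg _)
        rw [h5, h6]
        linarith
      nlinarith [norm_nonneg (2 + y * I + ((0 : ℕ) : ℂ))]
    have h8 : (1 + y ^ 2) * ‖kn φ n (2 + y * I)‖ ≤ B * (2 ^ |(3 : ℝ)| * (n : ℝ) ^ (3 : ℝ)) :=
      (mul_le_mul_of_nonneg_right h4 (norm_nonneg _)).trans h2
    have h9 : 0 < 1 + y ^ 2 := by positivity
    rw [← div_eq_mul_inv, le_div_iff₀ h9]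
    linarith
  exact (integrable_inv_one_add_sq.const_mul _).mono' hc.aestronglyMeasurable
    (Filter.Eventually.of_forall hb)

theorem inv_fn {φ : ℝ → ℝ} (h : Bp φ) {n : ℕ} (hn : 1 ≤ n) (m : ℕ) (hm : 1 ≤ m) :
    (φ ((m : ℝ) - n) : ℂ) =
      (1 / (2 * Real.pi) : ℝ) * ∫ y : ℝ, ((m : ℕ) : ℂ) ^ (-(2 + y * I)) * kn φ n (2 + y * I) := by
  have hm0 : (0 : ℝ) < m := by exact_mod_cast hm
  have e : mellin (fn φ n) = kn φ n := funext fun s => mellin_fn h hn s
  have h1 := mellinInv_mellin_eq (2 : ℝ) (fn φ n) hm0 (fn_conv h hn _).1 (by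
    show Integrable (fun y : ℝ => mellin (fn φ n) (((2 : ℝ) : ℂ) + y * I))
    rw [e]
    simpa using kn_int h hn) (fn_cont h n).continuousAt
  rw [e] at h1
  unfold mellinInv fn at h1
  rw [← h1, real_smul]
  push_cast
  simp only [smul_eq_mul]

/-- the coefficient `a n` of a Dirichlet series which converges absolutely at `2` -/
theorem repr {φ : ℝ → ℝ} (h : Bp φ) (h0 : φ 0 = 1) {n : ℕ} (hn : 1 ≤ n) (a : ℕ → ℂ)
    (ha : LSeriesSummable a 2) :
    a n = (1 / (2 * Real.pi) : ℝ) * ∫ y : ℝ, LSeries a (2 + y * I) * kn φ n (2 + y * I) := by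
  have hre : ∀ y : ℝ, (2 + y * I : ℂ).re = (2 : ℂ).re := fun y => by simp
  have hnorm : ∀ (y : ℝ) (m : ℕ), ‖LSeries.term a (2 + y * I) m‖ = ‖LSeries.term a 2 m‖ := by
    intro y m
    rw [LSeries.norm_term_eq, LSeries.norm_term_eq, hre]
  have hK := kn_int h hn
  -- continuity of the terms
  have hc : ∀ m : ℕ, Continuous (fun y : ℝ => LSeries.term a (2 + y * I) m) := by
    intro m
    by_cases hm : m = 0
    · subst hm
      simp only [LSeries.term_zero]
      exact continuous_const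
    · have h1 : (fun y : ℝ => LSeries.term a (2 + y * I) m) =
          fun y : ℝ => a m / (m : ℂ) ^ (2 + y * I : ℂ) := by
        funext y
        rw [LSeries.term_of_ne_zero hm]
      rw [h1]
      have hm0 : (m : ℂ) ≠ 0 := by exact_mod_cast hm
      refine continuous_const.div (Continuous.const_cpow (by fun_prop) (Or.inl hm0)) fun y => ?_
      rw [Ne, cpow_eq_zero_iff]
      tauto
  have hI : ∀ m : ℕ, Integrable (fun y : ℝ => LSeries.term a (2 + y * I) m * kn φ n (2 + y * I)) := by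
    intro m
    refine hK.bdd_mul (hc m).aestronglyMeasurable (c := ‖LSeries.term a 2 m‖)
      (Filter.Eventually.of_forall fun y => ?_)
    rw [hnorm]
  have hS : Summable fun m : ℕ => ∫ y : ℝ, ‖LSeries.term a (2 + y * I) m * kn φ n (2 + y * I)‖ := by
    have h1 : ∀ m : ℕ, ∫ y : ℝ, ‖LSeries.term a (2 + y * I) m * kn φ n (2 + y * I)‖ =
        ‖LSeries.term a 2 m‖ * ∫ y : ℝ, ‖kn φ n (2 + y * I)‖ := by
      intro m
      rw [← integral_const_mul]
      congr 1
      funext y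
      rw [norm_mul, hnorm]
    simp only [h1]
    exact (ha.norm).mul_right _
  have h2 := hasSum_integral_of_summable_integral_norm hI hS
  have h3 : ∫ y : ℝ, ∑' m : ℕ, LSeries.term a (2 + y * I) m * kn φ n (2 + y * I) =
      ∫ y : ℝ, LSeries a (2 + y * I) * kn φ n (2 + y * I) := by
    congr 1
    funext y
    rw [tsum_mul_right]
    rfl
  rw [h3] at h2
  have h4 : ∀ m : ℕ, ∫ y : ℝ, LSeries.term a (2 + y * I) m * kn φ n (2 + y * I) =
      if m = n then ((2 * Real.pi : ℝ) : ℂ) * a n else 0 := by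
    intro m
    by_cases hm : m = 0
    · subst hm
      rw [if_neg (by omega)]
      simp
    have hm1 : 1 ≤ m := by omega
    have h5 : ∫ y : ℝ, LSeries.term a (2 + y * I) m * kn φ n (2 + y * I) =
        a m * ∫ y : ℝ, ((m : ℕ) : ℂ) ^ (-(2 + y * I)) * kn φ n (2 + y * I) := by
      rw [← integral_const_mul]
      congr 1
      funext y
      rw [LSeries.term_of_ne_zero hm, cpow_neg]
      ring
    have h6 := inv_fn h hn m hm1
    have hpi : ((2 * Real.pi : ℝ) : ℂ) ≠ 0 := by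
      exact_mod_cast (by positivity : (2 * Real.pi : ℝ) ≠ 0)
    have h7 : ∫ y : ℝ, ((m : ℕ) : ℂ) ^ (-(2 + y * I)) * kn φ n (2 + y * I) =
        ((2 * Real.pi : ℝ) : ℂ) * (φ ((m : ℝ) - n) : ℂ) := by
      rw [h6, ← mul_assoc, ← ofReal_mul, mul_one_div_cancel (by positivity), ofReal_one, one_mul]
    rw [h5, h7]
    split_ifs with hmn
    · subst hmn
      rw [sub_self, h0, ofReal_one]
      ring
    · have h8 : φ ((m : ℝ) - n) = 0 := by
        apply h.2
        rcases lt_or_gt_of_ne hmn with h9 | h9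
        · have : (m : ℝ) + 1 ≤ n := by exact_mod_cast h9
          rw [abs_of_neg (by linarith)]
          linarith
        · have : (n : ℝ) + 1 ≤ m := by exact_mod_cast h9
          rw [abs_of_pos (by linarith)]
          linarith
      rw [h8]
      simp
  have h5 : HasSum (fun m : ℕ => if m = n then ((2 * Real.pi : ℝ) : ℂ) * a n else 0)
      (((2 * Real.pi : ℝ) : ℂ) * a n) := hasSum_ite_eq n _
  have h6 : ∫ y : ℝ, LSeries a (2 + y * I) * kn φ n (2 + y * I) = ((2 * Real.pi : ℝ) : ℂ) * a n := by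
    simp only [h4] at h2
    exact h2.unique h5
  rw [h6, ← mul_assoc, ← ofReal_mul, one_div, inv_mul_cancel₀ (by positivity), ofReal_one, one_mul]

end Pool.Agent.H43.WH
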